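import Pool.Agent.Q259.NCSign.Crit
import Pool.Agent.Q259.NW.Eig
import Pool.Agent.Q259.NW.Pure

/-! The noncommutative Weil conjecture: definitions. -/

set_option autoImplicit false
set_option linter.unusedSectionVars false

open CategoryTheory Limits MonoidalCategory
open Pool.Agent.Y112.SR Pool.Agent.Q259.NCSign Pool.Agent.Q259.NW

namespace Pool.Agent.Q154.NW

universe v u w

variable {C : Type u} [Category.{v} C] [Preadditive C] [Linear ℚ C] [MonoidalCategory C]
  [SymmetricCategory C] [RightRigidCategory C] {K : Type w} [Field K] (R : SuperRealisation C K)

/-- A natural operator on the realisation which preserves the parity. -/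
structure NatOp where
  /-- the operators -/
  op (M : C) : Module.End K (R.H.obj M)
  nat {M N : C} (f : M ⟶ N) : op N ∘ₗ (R.H.map f).hom = (R.H.map f).hom ∘ₗ op M
  par (M : C) : op M * sgn R M = sgn R M * op M

/-- The projector to the even part of the realisation. -/
noncomputable def pEven (M : C) : Module.End K (R.H.obj M) := (2 : K)⁻¹ • (1 + sgn R M)

/-- The projector to the odd part of the realisation. -/
noncomputable def pOdd (M : C) : Module.End K (R.H.obj M) := (2 : K)⁻¹ • (1 - sgn R M)

/-- The operator `p F` on the image of `p`; it is the restriction of `F`, if `F` and the projector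
`p` commute. -/
noncomputable def onImage {V : Type*} [AddCommGroup V] [Module K V] (p F : Module.End K V) :
    Module.End K (LinearMap.range p) := p.rangeRestrict ∘ₗ F ∘ₗ (LinearMap.range p).subtype

variable {R}

/-- The eigenvalues of `F` on the even part of the realisation, with multiplicities. -/
noncomputable def eigEven (F : NatOp R) (M : C) : Multiset (AlgebraicClosure K) :=
  eigs (onImage (pEven R M) (F.op M))

/-- The eigenvalues of `F` on the odd part of the realisation, with multiplicities. -/
noncomputable def eigOdd (F : NatOp R) (M : C) : Multiset (AlgebraicClosure K) :=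
  eigs (onImage (pOdd R M) (F.op M))

/-- The noncommutative Weil conjecture for `M`: the eigenvalues of `F` on the even part are
algebraic numbers with all conjugates of absolute value `1`, those on the odd part are algebraic
numbers with all conjugates of absolute value `√q`. -/
def Weil [CharZero K] (q : ℕ) (F : NatOp R) (M : C) : Prop :=
  (∀ x ∈ eigEven F M, IsPure 1 x) ∧ ∀ x ∈ eigOdd F M, IsPure (√q) x

open scoped Classical in
/-- The number of eigenvalues which satisfy the noncommutative Weil conjecture. -/
noncomputable def good [CharZero K] (q : ℕ) (F : NatOp R) (M : C) : ℕ :=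
  (eigEven F M).countP (IsPure 1) + (eigOdd F M).countP (IsPure (√q))

/-- The dimension of the realisation. -/
noncomputable def tdim (R : SuperRealisation C K) (M : C) : ℕ := Module.finrank K (R.H.obj M)

/-- The eigenvalues of `F` on the realisations of the `N j`, counted with multiplicities and for
all `j` together, are among the eigenvalues on the realisation of `M`, for both parities. -/
def EigAmong (F : NatOp R) (M : C) {k : ℕ} (N : Fin k → C) : Prop :=
  ∑ j, eigEven F (N j) ≤ eigEven F M ∧ ∑ j, eigOdd F (N j) ≤ eigOdd F M

/-- The eigenvalues of `F` on the realisations of the `N j`, counted with multiplicities and for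
all `j` together, are the eigenvalues on the realisation of `M`, for both parities. -/
def EigSame (F : NatOp R) (M : C) {k : ℕ} (N : Fin k → C) : Prop :=
  ∑ j, eigEven F (N j) = eigEven F M ∧ ∑ j, eigOdd F (N j) = eigOdd F M

/-- `M` satisfies the noncommutative Weil conjecture if and only if all `N j` do. -/
def WeilIff [CharZero K] (F : NatOp R) (M : C) {k : ℕ} (N : Fin k → C) : Prop :=
  ∀ q : ℕ, Weil q F M ↔ ∀ j, Weil q F (N j)

/-- If all `N j` satisfy the noncommutative Weil conjecture, then at least as many of the
eigenvalues of `F` on the realisation of `M` satisfy it as the sum of the dimensions of the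
realisations of the `N j` says. -/
def WeilCount [CharZero K] (F : NatOp R) (M : C) {k : ℕ} (N : Fin k → C) : Prop :=
  ∀ q : ℕ, (∀ j, Weil q F (N j)) → ∑ j, tdim R (N j) ≤ good q F M

/-- If `M` satisfies the noncommutative Weil conjecture, then all `N j` do. -/
def WeilDown [CharZero K] (F : NatOp R) (M : C) {k : ℕ} (N : Fin k → C) : Prop :=
  ∀ q : ℕ, Weil q F M → ∀ j, Weil q F (N j)

end Pool.Agent.Q154.NW
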