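import Pool.Agent.Q259.NCSign.Lin
import Pool.Agent.Q259.NW.Eig

/-! Linear algebra: operators whose powers have constant traces, and eigenvalues. -/

open Polynomial

set_option autoImplicit false
set_option linter.unusedSectionVars false

namespace Pool.Agent.Q154.NW

open Pool.Agent.Q259.NCSign Pool.Agent.Q259.NW

section

variable {K V : Type*} [Field K] [CharZero K] [AddCommGroup V] [Module K V] [Module.Finite K V]

/-- If all powers of `T` have the trace `p`, then some polynomial in `T` without constant term is
an idempotent with trace `p`. -/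
theorem const_idem {T : Module.End K V} {p : K}
    (h : ∀ m : ℕ, 1 ≤ m → LinearMap.trace K V (T ^ m) = p) :
    ∃ Q : K[X], aeval T (X * Q) * aeval T (X * Q) = aeval T (X * Q) ∧
      LinearMap.trace K V (aeval T (X * Q)) = p := by
  have hint : IsIntegral K T := Algebra.IsIntegral.isIntegral T
  obtain ⟨f, hf, hf1⟩ := exists_eq_pow_rootMultiplicity_mul_and_not_dvd (minpoly K T)
    (minpoly.ne_zero hint) 1
  set b := rootMultiplicity 1 (minpoly K T)
  set B : K[X] := (X - C 1) ^ (b + 1) with hB
  have hF : aeval T (B * (X * f)) = 0 := by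
    have : B * (X * f) = minpoly K T * (X * (X - C 1)) := by
      rw [hf, hB]; ring
    rw [this, map_mul, minpoly.aeval, zero_mul]
  have hdvd : ∀ P : K[X], B * (X * f) ∣ P → aeval T P = 0 := by
    rintro _ ⟨Q, rfl⟩
    rw [map_mul, hF, zero_mul]
  have c1 : IsCoprime (X - C (1 : K)) X := ⟨-1, 1, by rw [C_1]; ring⟩
  have c2 : IsCoprime (X - C (1 : K)) f :=
    (Irreducible.coprime_iff_not_dvd (irreducible_X_sub_C 1)).2 hf1
  have cB : IsCoprime B (X * f) := (c1.mul_right c2).pow_left
  obtain ⟨u, v, huv⟩ := cB
  set P1 : K[X] := v * (X * f) with hP1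
  have hP1' : 1 - P1 = u * B := by rw [← huv]; ring
  have hX : P1 = X * (v * f) := by rw [hP1]; ring
  refine ⟨v * f, ?_, ?_⟩
  · rw [← hX, ← sub_eq_zero, ← map_mul, ← map_sub]
    apply hdvd
    have : P1 * P1 - P1 = -(P1 * (1 - P1)) := by ring
    rw [this, hP1', hP1]
    exact ⟨-(v * u), by ring⟩
  · have h1 := trace_poly (ε := 1) (T := T) (p := p) (fun m hm => by rw [mul_one, h m hm]) (v * f)
    rw [mul_one] at h1
    have h3 : (v * f).eval 1 = 1 := by
      have h4 := congrArg (fun P : K[X] => P.eval 1) hP1'
      simp only [eval_sub, eval_one, hX, eval_mul, eval_X, one_mul, hB, eval_pow, eval_C,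
        sub_self] at h4
      rw [zero_pow (by omega), mul_zero, sub_eq_zero] at h4
      simp only [eval_mul]
      exact h4.symm
    rw [h1, h3, mul_one]

omit [CharZero K] in
lemma idem_isProj {f : Module.End K V} (hf : f * f = f) :
    LinearMap.IsProj (LinearMap.range f) f := by
  refine ⟨fun x => LinearMap.mem_range_self f x, ?_⟩
  rintro _ ⟨y, rfl⟩
  exact LinearMap.congr_fun hf y

omit [CharZero K] in
lemma trace_idem {f : Module.End K V} (hf : f * f = f) :
    LinearMap.trace K V f = Module.finrank K (LinearMap.range f) :=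
  (idem_isProj hf).trace

omit [CharZero K] in
lemma mem_range_idem {f : Module.End K V} (hf : f * f = f) {x : V} :
    x ∈ LinearMap.range f ↔ f x = x :=
  ⟨fun hx => (idem_isProj hf).2 x hx, fun hx => ⟨x, hx⟩⟩

end

section

universe w

variable {K : Type*} [Field K] [CharZero K]

/-- The eigenvalues of a finite direct sum of operators. -/
theorem eigs_pi (k : ℕ) (V : Fin k → Type w) [∀ j, AddCommGroup (V j)] [∀ j, Module K (V j)]
    [∀ j, Module.Finite K (V j)] (G : ∀ j, Module.End K (V j)) :
    eigs (LinearMap.pi fun j => G j ∘ₗ LinearMap.proj j : Module.End K (∀ j, V j)) =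
      ∑ j, eigs (G j) := by
  induction k with
  | zero =>
    rw [Finset.univ_eq_empty, Finset.sum_empty, ← Multiset.card_eq_zero, card_eigs]
    exact Module.finrank_zero_of_subsingleton
  | succ k ih =>
    rw [Fin.sum_univ_succ, ← ih (fun j => V j.succ) (fun j => G j.succ), ← eigs_prodMap]
    symm
    refine eigs_equiv (Fin.consLinearEquiv K V) fun x => ?_
    funext j
    refine Fin.cases ?_ (fun j => ?_) j
    · rfl
    · rfl

variable {V W : Type*} [AddCommGroup V] [Module K V] [Module.Finite K V] [AddCommGroup W]
  [Module K W] [Module.Finite K W]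

/-- The eigenvalues on a direct summand. -/
theorem eigs_le {F : Module.End K V} {G : Module.End K W} {I : W →ₗ[K] V}
    (hI : Function.Injective I) (hFG : ∀ x, F (I x) = I (G x)) {e : Module.End K V}
    (he : e * e = e) (heF : e * F = F * e) (hr : LinearMap.range e = LinearMap.range I) :
    eigs G ≤ eigs F := by
  have hk : ∀ x ∈ LinearMap.ker e, F x ∈ LinearMap.ker e := by
    intro x hx
    rw [LinearMap.mem_ker] at hx ⊢
    have := LinearMap.congr_fun heF x
    rw [Module.End.mul_apply, Module.End.mul_apply, hx, map_zero] at this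
    exact this
  let Ψ : (W × LinearMap.ker e) →ₗ[K] V := LinearMap.coprod I (LinearMap.ker e).subtype
  have hfix : ∀ w, e (I w) = I w := fun w => by
    rw [← mem_range_idem he, hr]
    exact ⟨w, rfl⟩
  have hΨ : Function.Bijective Ψ := by
    constructor
    · rw [injective_iff_map_eq_zero]
      rintro ⟨w, z, hz⟩ h0
      have h0' : I w + z = 0 := h0
      have h1 := congrArg e h0'
      rw [map_add, hfix, LinearMap.mem_ker.1 hz, add_zero, map_zero] at h1
      have hw : w = 0 := hI (by rw [h1, map_zero])
      subst hw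
      rw [map_zero, zero_add] at h0'
      subst h0'
      rfl
    · intro x
      have h1 : e x ∈ LinearMap.range I := by rw [← hr]; exact ⟨x, rfl⟩
      obtain ⟨w, hw⟩ := h1
      refine ⟨(w, ⟨x - e x, ?_⟩), ?_⟩
      · rw [LinearMap.mem_ker, map_sub]
        have := LinearMap.congr_fun he x
        rw [Module.End.mul_apply] at this
        rw [this, sub_self]
      · change I w + (x - e x) = x
        rw [hw]; abel
  have h1 := eigs_equiv (f := LinearMap.prodMap G (F.restrict hk)) (g := F)
    (LinearEquiv.ofBijective Ψ hΨ) (by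
      rintro ⟨w, z⟩
      change I (G w) + F z = F (I w + z)
      rw [map_add, hFG])
  rw [← h1, eigs_prodMap]
  exact Multiset.le_add_right _ _

end

end Pool.Agent.Q154.NW
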