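import Pool.Agent.Q154.NS.Sum
import Pool.Agent.Q154.NW.Lin
import Pool.Agent.Q154.NW.Defs

/-! Numerical direct summands and natural direct summands of the realisation. -/

set_option autoImplicit false
set_option linter.unusedSectionVars false
set_option linter.unusedSimpArgs false
set_option linter.unusedVariables false
set_option backward.isDefEq.respectTransparency false
set_option backward.defeqAttrib.useBackward true

open CategoryTheory Limits MonoidalCategory
open Pool.Agent.Y112.SR Pool.Agent.Q259.NCSign Pool.Agent.Q154.NS Pool.Agent.Q259.NW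

namespace Pool.Agent.Q154.NW

universe v u w w'

section span

variable {K : Type*} [Field K] {A B D : Type*} [AddCommGroup A] [Module K A] [AddCommGroup B]
  [Module K B] [AddCommGroup D] [Module K D]

lemma comp_span {S : Set (B →ₗ[K] D)} {T : Set (A →ₗ[K] B)} {U : Submodule K (A →ₗ[K] D)}
    (h : ∀ s ∈ S, ∀ t ∈ T, s ∘ₗ t ∈ U) {s : B →ₗ[K] D} {t : A →ₗ[K] B}
    (hs : s ∈ Submodule.span K S) (ht : t ∈ Submodule.span K T) : s ∘ₗ t ∈ U := by
  induction hs using Submodule.span_induction with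
  | mem x hx =>
    induction ht using Submodule.span_induction with
    | mem y hy => exact h x hx y hy
    | zero => rw [LinearMap.comp_zero]; exact Submodule.zero_mem _
    | add y z _ _ h1 h2 => rw [LinearMap.comp_add]; exact Submodule.add_mem _ h1 h2
    | smul c y _ h1 => rw [LinearMap.comp_smul]; exact Submodule.smul_mem _ _ h1
  | zero => rw [LinearMap.zero_comp]; exact Submodule.zero_mem _
  | add x y _ _ h1 h2 => rw [LinearMap.add_comp]; exact Submodule.add_mem _ h1 h2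
  | smul c x _ h1 => rw [LinearMap.smul_comp]; exact Submodule.smul_mem _ _ h1

end span

section

variable {C : Type u} [Category.{v} C] [Preadditive C] [Linear ℚ C] [MonoidalCategory C]
  [SymmetricCategory C] [RightRigidCategory C] {K : Type w} [Field K] (R : SuperRealisation C K)

/-- A natural direct summand of the realisation, which lies in the even part (`τ = 1`) or in the
odd part (`τ = -1`): natural projectors `p M` of the spaces `R(M)`. -/
structure NatPart where
  /-- the projectors -/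
  p (M : C) : Module.End K (R.H.obj M)
  /-- the parity -/
  τ : K
  idem (M : C) : p M * p M = p M
  nat {M N : C} (f : M ⟶ N) : p N ∘ₗ (R.H.map f).hom = (R.H.map f).hom ∘ₗ p M
  τ_sq : τ * τ = 1
  par (M : C) : sgn R M * p M = τ • p M

/-- The combinations of the operators given by morphisms. -/
def KH (L M : C) : Submodule K (R.H.obj L →ₗ[K] R.H.obj M) :=
  Submodule.span K {a | ∃ f : L ⟶ M, (R.H.map f).hom = a}

/-- The combinations of the operators given by numerically trivial morphisms. -/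
def KN (L M : C) : Submodule K (R.H.obj L →ₗ[K] R.H.obj M) :=
  Submodule.span K {a | ∃ f : L ⟶ M, NumTrivial f ∧ (R.H.map f).hom = a}

variable {R}

lemma gen_KH {L M : C} (f : L ⟶ M) : (R.H.map f).hom ∈ KH R L M :=
  Submodule.subset_span ⟨f, rfl⟩

lemma gen_KN {L M : C} {f : L ⟶ M} (hf : NumTrivial f) : (R.H.map f).hom ∈ KN R L M :=
  Submodule.subset_span ⟨f, hf, rfl⟩

lemma KH_comp {L M N : C} {b : R.H.obj M →ₗ[K] R.H.obj N} {a : R.H.obj L →ₗ[K] R.H.obj M}
    (hb : b ∈ KH R M N) (ha : a ∈ KH R L M) : b ∘ₗ a ∈ KH R L N := by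
  refine comp_span ?_ hb ha
  rintro _ ⟨g, rfl⟩ _ ⟨f, rfl⟩
  apply Submodule.subset_span
  exact ⟨f ≫ g, by rw [Functor.map_comp]; rfl⟩

lemma KN_left {L M N : C} {b : R.H.obj M →ₗ[K] R.H.obj N} {a : R.H.obj L →ₗ[K] R.H.obj M}
    (hb : b ∈ KH R M N) (ha : a ∈ KN R L M) : b ∘ₗ a ∈ KN R L N := by
  refine comp_span ?_ hb ha
  rintro _ ⟨g, rfl⟩ _ ⟨f, hf, rfl⟩
  apply Submodule.subset_span
  exact ⟨f ≫ g, nt_comp hf g, by rw [Functor.map_comp]; rfl⟩

section unit

variable (hunit : ∀ c : 𝟙_ C ⟶ 𝟙_ C, ∃ q : ℚ, c = q • 𝟙 _)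
include hunit

lemma KN_right {L M N : C} {b : R.H.obj M →ₗ[K] R.H.obj N} {a : R.H.obj L →ₗ[K] R.H.obj M}
    (hb : b ∈ KN R M N) (ha : a ∈ KH R L M) : b ∘ₗ a ∈ KN R L N := by
  refine comp_span ?_ hb ha
  rintro _ ⟨g, hg, rfl⟩ _ ⟨f, rfl⟩
  apply Submodule.subset_span
  exact ⟨f ≫ g, comp_nt R hunit f hg, by rw [Functor.map_comp]; rfl⟩

lemma str_KN {M : C} {a : Module.End K (R.H.obj M)} (ha : a ∈ KN R M M) :
    LinearMap.trace K (R.H.obj M) (sgn R M * a) = 0 := by
  have ha' : a ∈ Submodule.span K {a : Module.End K (R.H.obj M) |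
    ∃ f : M ⟶ M, NumTrivial f ∧ (R.H.map f).hom = a} := ha
  clear ha
  induction ha' using Submodule.span_induction with
  | mem x hx =>
    obtain ⟨f, hf, rfl⟩ := hx
    have h1 := (numTrivial_iff R hunit f).1 hf (𝟙 M)
    rw [Category.comp_id] at h1
    exact (str_op R f).symm.trans h1
  | zero => rw [mul_zero, map_zero]
  | add x y _ _ h1 h2 => rw [mul_add, map_add, h1, h2, add_zero]
  | smul c x _ h1 => rw [mul_smul_comm, map_smul, h1, smul_zero]

end unit

variable (P : NatPart R)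

lemma NatPart.trace_eq {M : C} {a : Module.End K (R.H.obj M)} (ha : P.p M * a = a) :
    LinearMap.trace K (R.H.obj M) a = P.τ * LinearMap.trace K (R.H.obj M) (sgn R M * a) := by
  have h1 : sgn R M * a = P.τ • a := by
    rw [← ha, ← mul_assoc, P.par, smul_mul_assoc]
  rw [h1, map_smul, smul_eq_mul, ← mul_assoc, P.τ_sq, one_mul]

variable {M : C} {k : ℕ} {N : Fin k → C} (i : ∀ j, N j ⟶ M) (r : ∀ j, M ⟶ N j)

/-- the pieces -/
noncomputable def pc (j : Fin k) : Module.End K (R.H.obj M) :=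
  (R.H.map (i j)).hom ∘ₗ P.p (N j) ∘ₗ (R.H.map (r j)).hom

lemma p_pc (j : Fin k) : P.p M * pc P i r j = pc P i r j := by
  have h1 : P.p M * pc P i r j =
      (P.p M ∘ₗ (R.H.map (i j)).hom) ∘ₗ P.p (N j) ∘ₗ (R.H.map (r j)).hom := rfl
  have h2 : P.p (N j) ∘ₗ P.p (N j) = P.p (N j) := P.idem (N j)
  rw [h1, P.nat, LinearMap.comp_assoc, ← LinearMap.comp_assoc (R.H.map (r j)).hom, h2]
  rfl

lemma pc_p (j : Fin k) : pc P i r j * P.p M = pc P i r j := by
  have h1 : pc P i r j * P.p M =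
      (R.H.map (i j)).hom ∘ₗ P.p (N j) ∘ₗ ((R.H.map (r j)).hom ∘ₗ P.p M) := rfl
  have h2 : P.p (N j) ∘ₗ P.p (N j) = P.p (N j) := P.idem (N j)
  rw [h1, ← P.nat, ← LinearMap.comp_assoc _ (P.p (N j)) (P.p (N j)), h2]
  rfl

/-- the sum of the pieces -/
noncomputable def E : Module.End K (R.H.obj M) := ∑ j, pc P i r j

lemma p_E : P.p M * E P i r = E P i r := by
  rw [E, Finset.mul_sum]
  exact Finset.sum_congr rfl fun j _ => p_pc P i r j

lemma E_p : E P i r * P.p M = E P i r := by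
  rw [E, Finset.sum_mul]
  exact Finset.sum_congr rfl fun j _ => pc_p P i r j

variable {i r}

lemma pc_mem (hP : ∀ j, P.p (N j) ∈ KH R (N j) (N j)) (j : Fin k) : pc P i r j ∈ KH R M M :=
  KH_comp (gen_KH _) (KH_comp (hP j) (gen_KH _))

lemma E_mem (hP : ∀ j, P.p (N j) ∈ KH R (N j) (N j)) : E P i r ∈ KH R M M :=
  Submodule.sum_mem _ fun j _ => pc_mem P hP j

variable (hunit : ∀ c : 𝟙_ C ⟶ 𝟙_ C, ∃ q : ℚ, c = q • 𝟙 _)
include hunit

lemma pc_ne (h : NumSummands M N i r) (hP : ∀ j, P.p (N j) ∈ KH R (N j) (N j)) {j l : Fin k}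
    (hjl : j ≠ l) : pc P i r j * pc P i r l ∈ KN R M M := by
  have h1 : pc P i r j * pc P i r l = (R.H.map (i j)).hom ∘ₗ P.p (N j) ∘ₗ
      (R.H.map (i l ≫ r j)).hom ∘ₗ P.p (N l) ∘ₗ (R.H.map (r l)).hom := by
    rw [Functor.map_comp]
    rfl
  rw [h1]
  exact KN_left (gen_KH _) (KN_left (hP j) (KN_right hunit (gen_KN (h.off l j hjl.symm))
    (KH_comp (hP l) (gen_KH _))))

lemma pc_self (h : NumSummands M N i r) (hP : ∀ j, P.p (N j) ∈ KH R (N j) (N j)) (j : Fin k) :
    pc P i r j * pc P i r j - pc P i r j ∈ KN R M M := by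
  have h2 : P.p (N j) ∘ₗ P.p (N j) = P.p (N j) := P.idem (N j)
  have h1 : pc P i r j * pc P i r j - pc P i r j = (R.H.map (i j)).hom ∘ₗ P.p (N j) ∘ₗ
      (R.H.map (i j ≫ r j - 𝟙 (N j))).hom ∘ₗ P.p (N j) ∘ₗ (R.H.map (r j)).hom := by
    rw [Functor.map_sub, Functor.map_comp, CategoryTheory.Functor.map_id, ModuleCat.hom_sub,
      LinearMap.sub_comp, LinearMap.comp_sub, LinearMap.comp_sub]
    congr 1
    change _ = (R.H.map (i j)).hom ∘ₗ P.p (N j) ∘ₗ P.p (N j) ∘ₗ (R.H.map (r j)).hom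
    rw [← LinearMap.comp_assoc (R.H.map (r j)).hom (P.p (N j)) (P.p (N j)), h2]
    rfl
  rw [h1]
  exact KN_left (gen_KH _) (KN_left (hP j) (KN_right hunit (gen_KN (h.diag j))
    (KH_comp (hP j) (gen_KH _))))

lemma E_sq (h : NumSummands M N i r) (hP : ∀ j, P.p (N j) ∈ KH R (N j) (N j)) :
    E P i r * E P i r - E P i r ∈ KN R M M := by
  have h1 : E P i r * E P i r - E P i r = ∑ j, ((pc P i r j * pc P i r j - pc P i r j) +
      ∑ l ∈ Finset.univ.erase j, pc P i r j * pc P i r l) := by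
    rw [E, Finset.sum_mul, ← Finset.sum_sub_distrib]
    refine Finset.sum_congr rfl fun j _ => ?_
    rw [Finset.mul_sum, ← Finset.add_sum_erase Finset.univ _ (Finset.mem_univ j)]
    abel
  rw [h1]
  refine Submodule.sum_mem _ fun j _ => Submodule.add_mem _ (pc_self P hunit h hP j)
    (Submodule.sum_mem _ fun l hl => pc_ne P hunit h hP ?_)
  exact (Finset.ne_of_mem_erase hl).symm

lemma E_pow (h : NumSummands M N i r) (hP : ∀ j, P.p (N j) ∈ KH R (N j) (N j)) (m : ℕ) :
    E P i r ^ (m + 1) - E P i r ∈ KN R M M := by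
  induction m with
  | zero => rw [zero_add, pow_one, sub_self]; exact Submodule.zero_mem _
  | succ m ih =>
    have h1 : E P i r ^ (m + 1 + 1) - E P i r =
        E P i r * (E P i r ^ (m + 1) - E P i r) + (E P i r * E P i r - E P i r) := by
      rw [pow_succ' _ (m + 1), mul_sub]; abel
    rw [h1]
    exact Submodule.add_mem _ (KN_left (E_mem P hP) ih) (E_sq P hunit h hP)

lemma trace_pc (h : NumSummands M N i r) (hP : ∀ j, P.p (N j) ∈ KH R (N j) (N j)) (j : Fin k) :
    LinearMap.trace K (R.H.obj M) (pc P i r j) =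
      Module.finrank K (LinearMap.range (P.p (N j))) := by
  have := R.finite M
  have := R.finite (N j)
  have h0 : P.p (N j) * P.p (N j) = P.p (N j) := P.idem (N j)
  have h1 : LinearMap.trace K (R.H.obj M) (pc P i r j) = LinearMap.trace K (R.H.obj (N j))
      (P.p (N j) * (R.H.map (i j ≫ r j)).hom) := by
    rw [pc, LinearMap.trace_comp_comm', Functor.map_comp]
    rfl
  have h2 : P.p (N j) * (R.H.map (i j ≫ r j)).hom = P.p (N j) +
      P.p (N j) ∘ₗ (R.H.map (i j ≫ r j - 𝟙 (N j))).hom := by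
    have e1 : (R.H.map (𝟙 (N j))).hom = (1 : Module.End K (R.H.obj (N j))) := by
      rw [CategoryTheory.Functor.map_id]; rfl
    rw [Functor.map_sub, ModuleCat.hom_sub, LinearMap.comp_sub, e1]
    change _ = P.p (N j) + (P.p (N j) * _ - P.p (N j) * 1)
    rw [mul_one, add_sub_cancel]
  have h3 : P.p (N j) ∘ₗ (R.H.map (i j ≫ r j - 𝟙 (N j))).hom ∈ KN R (N j) (N j) :=
    KN_left (hP j) (gen_KN (h.diag j))
  have h4 := P.trace_eq (M := N j) (a := P.p (N j) ∘ₗ (R.H.map (i j ≫ r j - 𝟙 (N j))).hom) (by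
    change P.p (N j) * (P.p (N j) * _) = P.p (N j) * _
    rw [← mul_assoc, h0])
  rw [str_KN hunit h3, mul_zero] at h4
  rw [h1, h2, map_add, h4, add_zero, trace_idem h0]

lemma trace_E_pow (h : NumSummands M N i r) (hP : ∀ j, P.p (N j) ∈ KH R (N j) (N j)) (m : ℕ)
    (hm : 1 ≤ m) : LinearMap.trace K (R.H.obj M) (E P i r ^ m) =
      ((∑ j, Module.finrank K (LinearMap.range (P.p (N j))) : ℕ) : K) := by
  obtain ⟨m, rfl⟩ : ∃ m', m = m' + 1 := ⟨m - 1, by omega⟩
  have h1 : P.p M * (E P i r ^ (m + 1) - E P i r) = E P i r ^ (m + 1) - E P i r := by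
    rw [mul_sub, pow_succ', ← mul_assoc, p_E]
  have h2 := P.trace_eq h1
  rw [str_KN hunit (E_pow P hunit h hP m), mul_zero, map_sub, sub_eq_zero] at h2
  rw [h2, E, map_sum, Finset.sum_congr rfl fun j _ => trace_pc P hunit h hP j]
  push_cast
  rfl

end

end Pool.Agent.Q154.NW
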