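import Pool.Agent.Q259.NCSign.Crit

/-! Galois representations and Euler factors of the realisations: definitions. -/

set_option autoImplicit false
set_option linter.unusedSectionVars false

open CategoryTheory Limits MonoidalCategory Polynomial
open Pool.Agent.Y112.SR Pool.Agent.Q259.NCSign

namespace Pool.Agent.Q154.NW

universe v u w

section lin

variable {K V : Type*} [Field K] [AddCommGroup V] [Module K V]

/-- The vectors in the image of `p` which are fixed by all operators `T g`. -/
noncomputable def fixedIn (p : Module.End K V) {J : Type*} (T : J → Module.End K V) :
    Submodule K V := LinearMap.range p ⊓ ⨅ g, LinearMap.ker (T g - 1)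

open scoped Classical in
/-- The polynomial `det (1 - T F)` for the operator `F` on the subspace `U` (zero, if `F` does not
map `U` to itself). -/
noncomputable def detOn [Module.Finite K V] (F : Module.End K V) (U : Submodule K V) : K[X] :=
  if h : ∀ x ∈ U, F x ∈ U then (F.restrict h).charpoly.reverse else 0

end lin

section

variable {C : Type u} [Category.{v} C] [Preadditive C] [Linear ℚ C] [MonoidalCategory C]
  [SymmetricCategory C] [RightRigidCategory C] {K : Type w} [Field K]

/-- The operators on the realisation of `M`. -/
abbrev Opr (R : SuperRealisation C K) (M : C) : Type w := Module.End K (R.H.obj M)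

/-- The operators `a` on `R(M)` and `b` on `R(N)` are compatible with the morphism `f`. -/
def Along (R : SuperRealisation C K) {M N : C} (f : M ⟶ N) (a : Opr R M) (b : Opr R N) : Prop :=
  b ∘ₗ (R.H.map f).hom = (R.H.map f).hom ∘ₗ a

/-- The part of one degree of a realisation: natural projectors `p M` of the spaces `R(M)` whose
images are even for all `M`, or odd for all `M`. -/
structure DegPart (R : SuperRealisation C K) where
  /-- the projector to the part of the given degree -/
  p (M : C) : Opr R M
  idem (M : C) : p M * p M = p M
  nat {M N : C} (f : M ⟶ N) : Along R f (p M) (p N)
  parity : (∀ M, sgn R M * p M = p M) ∨ (∀ M, sgn R M * p M = -p M)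

/-- A natural action of the group `G` on the realisation which preserves the given part. -/
structure GalPart (G : Type) [Group G] (R : SuperRealisation C K) extends DegPart R where
  /-- the action of the group -/
  act (g : G) (M : C) : Opr R M
  act_one (M : C) : act 1 M = 1
  act_mul (g h : G) (M : C) : act (g * h) M = act g M * act h M
  act_nat (g : G) {M N : C} (f : M ⟶ N) : Along R f (act g M) (act g N)
  act_p (g : G) (M : C) : act g M * p M = p M * act g M

variable {G : Type} [Group G] {R : SuperRealisation C K} (A : GalPart G R)

/-- The dimension of the part of the given degree. -/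
noncomputable def GalPart.betti (M : C) : ℕ := Module.finrank K (LinearMap.range (A.p M))

/-- The projector is a linear combination of the operators given by endomorphisms of `M`. -/
def GalPart.Algebraic (M : C) : Prop := A.p M ∈ Submodule.span K (ops R M)

/-- The invariants of the subgroup `I` in the part of the given degree. -/
noncomputable def GalPart.inv (I : Subgroup G) (M : C) : Submodule K (R.H.obj M) :=
  fixedIn (A.p M) fun g : I => A.act g M

/-- The Euler factor `det (1 - T φ)` on the invariants of `I` in the part of the given degree (zero,
if `φ` does not preserve the invariants). -/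
noncomputable def GalPart.euler (I : Subgroup G) (φ : G) (M : C) : K[X] :=
  detOn (A.act φ M) (A.inv I M)

end

section

variable {C : Type u} [Category.{v} C] [Preadditive C] [Linear ℚ C] [MonoidalCategory C]
  [SymmetricCategory C] [RightRigidCategory C] {L : Type} {K : L → Type w} [∀ l, Field (K l)]
  [∀ l, CharZero (K l)] {G : Type} [Group G] {R : ∀ l, SuperRealisation C (K l)}

/-- The Euler factors of `M` for all `l` have rational coefficients and are the same. -/
def Indep (A : ∀ l, GalPart G (R l)) (I : Subgroup G) (φ : G) (M : C) : Prop :=
  ∃ P : ℚ[X], ∀ l, (A l).euler I φ M = P.map (Rat.castHom (K l))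

end

end Pool.Agent.Q154.NW
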