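import Pool.Agent.Q154.NW.Main
import Pool.Agent.Q154.NW.GalDefs

/-! Euler factors and numerical direct summands. -/

set_option autoImplicit false
set_option linter.unusedSectionVars false
set_option linter.unusedSimpArgs false
set_option linter.unusedVariables false
set_option backward.isDefEq.respectTransparency false
set_option backward.defeqAttrib.useBackward true

open CategoryTheory Limits MonoidalCategory Polynomial
open Pool.Agent.Y112.SR Pool.Agent.Q259.NCSign Pool.Agent.Q154.NS Pool.Agent.Q259.NW

namespace Pool.Agent.Q154.NW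

universe v u w w'

section lin

variable {K : Type*} [Field K]

theorem charpoly_pi (k : ℕ) (V : Fin k → Type w) [∀ j, AddCommGroup (V j)] [∀ j, Module K (V j)]
    [∀ j, Module.Finite K (V j)] (G : ∀ j, Module.End K (V j)) :
    (LinearMap.pi fun j => G j ∘ₗ LinearMap.proj j : Module.End K (∀ j, V j)).charpoly =
      ∏ j, (G j).charpoly := by
  induction k with
  | zero =>
    rw [Finset.univ_eq_empty, Finset.prod_empty]
    apply eq_one_of_monic_natDegree_zero (LinearMap.charpoly_monic _)
    rw [LinearMap.charpoly_natDegree]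
    exact Module.finrank_zero_of_subsingleton
  | succ k ih =>
    rw [Fin.prod_univ_succ, ← ih (fun j => V j.succ) (fun j => G j.succ),
      ← LinearMap.charpoly_prodMap, ← LinearEquiv.charpoly_conj (Fin.consLinearEquiv K V)]
    congr 1
    apply LinearMap.ext
    intro x
    rw [LinearEquiv.conj_apply_apply]
    obtain ⟨y, rfl⟩ := (Fin.consLinearEquiv K V).surjective x
    rw [LinearEquiv.symm_apply_apply]
    funext j
    refine Fin.cases ?_ (fun j => ?_) j
    · rfl
    · rfl

variable {V W : Type*} [AddCommGroup V] [Module K V] [Module.Finite K V] [AddCommGroup W]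
  [Module K W] [Module.Finite K W]

/-- The characteristic polynomial on a direct summand. -/
theorem charpoly_split {F : Module.End K V} {G : Module.End K W} {I : W →ₗ[K] V}
    (hI : Function.Injective I) (hFG : ∀ x, F (I x) = I (G x)) {e : Module.End K V}
    (he : e * e = e) (heF : e * F = F * e) (hr : LinearMap.range e = LinearMap.range I) :
    ∃ Q, F.charpoly = G.charpoly * Q ∧ (e = 1 → Q = 1) := by
  have hk : ∀ x ∈ LinearMap.ker e, F x ∈ LinearMap.ker e := by
    intro x hx
    rw [LinearMap.mem_ker] at hx ⊢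
    have := LinearMap.congr_fun heF x
    rw [Module.End.mul_apply, Module.End.mul_apply, hx, map_zero] at this
    exact this
  let Ψ : (W × LinearMap.ker e) →ₗ[K] V := LinearMap.coprod I (LinearMap.ker e).subtype
  have hfix : ∀ w, e (I w) = I w := fun w => by
    rw [← mem_range_idem he, hr]
    exact ⟨w, rfl⟩
  have hΨ : Function.Bijective Ψ := by
    constructor
    · rw [injective_iff_map_eq_zero]
      rintro ⟨w, z, hz⟩ h0
      have h0' : I w + z = 0 := h0
      have h1 := congrArg e h0'
      rw [map_add, hfix, LinearMap.mem_ker.1 hz, add_zero, map_zero] at h1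
      have hw : w = 0 := hI (by rw [h1, map_zero])
      subst hw
      rw [map_zero, zero_add] at h0'
      subst h0'
      rfl
    · intro x
      have h1 : e x ∈ LinearMap.range I := by rw [← hr]; exact ⟨x, rfl⟩
      obtain ⟨w, hw⟩ := h1
      refine ⟨(w, ⟨x - e x, ?_⟩), ?_⟩
      · rw [LinearMap.mem_ker, map_sub]
        have := LinearMap.congr_fun he x
        rw [Module.End.mul_apply] at this
        rw [this, sub_self]
      · change I w + (x - e x) = x
        rw [hw]; abel
  refine ⟨(F.restrict hk).charpoly, ?_, ?_⟩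
  · rw [← LinearMap.charpoly_prodMap, ← LinearEquiv.charpoly_conj (LinearEquiv.ofBijective Ψ hΨ)]
    congr 1
    apply LinearMap.ext
    intro x
    rw [LinearEquiv.conj_apply_apply]
    obtain ⟨⟨w, z⟩, rfl⟩ := (LinearEquiv.ofBijective Ψ hΨ).surjective x
    rw [LinearEquiv.symm_apply_apply]
    change F (I w + z) = I (G w) + F z
    rw [map_add, hFG]
  · rintro rfl
    apply eq_one_of_monic_natDegree_zero (LinearMap.charpoly_monic _)
    rw [LinearMap.charpoly_natDegree, Submodule.finrank_eq_zero, LinearMap.ker_eq_bot]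
    exact fun x y h => h

theorem reverse_prod' {k : ℕ} (Q : Fin k → K[X]) : (∏ j, Q j).reverse = ∏ j, (Q j).reverse := by
  classical
  have : ∀ s : Finset (Fin k), (∏ j ∈ s, Q j).reverse = ∏ j ∈ s, (Q j).reverse := by
    intro s
    induction s using Finset.induction_on with
    | empty =>
      rw [Finset.prod_empty, Finset.prod_empty, ← C_1, reverse_C]
    | insert a s ha ih =>
      rw [Finset.prod_insert ha, Finset.prod_insert ha, reverse_mul_of_domain, ih]
  exact this _

end lin

section

variable {C : Type u} [Category.{v} C] [Preadditive C] [Linear ℚ C] [MonoidalCategory C]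
  [SymmetricCategory C] [RightRigidCategory C] {K : Type w} [Field K] {R : SuperRealisation C K}
  {G : Type} [Group G] (A : GalPart G R)

/-- The natural direct summand. -/
theorem GalPart.exists_part : ∃ P : NatPart R, ∀ M, P.p M = A.p M := by
  rcases A.parity with h | h
  · exact ⟨⟨A.p, 1, A.idem, A.nat, one_mul 1, fun M => by rw [one_smul]; exact h M⟩, fun _ => rfl⟩
  · exact ⟨⟨A.p, -1, A.idem, A.nat, by ring, fun M => by rw [neg_smul, one_smul]; exact h M⟩,
      fun _ => rfl⟩

variable {A}

lemma GalPart.mem_inv {I : Subgroup G} {M : C} {x : R.H.obj M} :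
    x ∈ A.inv I M ↔ A.p M x = x ∧ ∀ g ∈ I, A.act g M x = x := by
  rw [GalPart.inv, fixedIn, Submodule.mem_inf, Submodule.mem_iInf, mem_range_idem (A.idem M)]
  refine and_congr_right fun _ => ⟨fun h g hg => ?_, fun h g => ?_⟩
  · have := LinearMap.mem_ker.1 (h ⟨g, hg⟩)
    rw [LinearMap.sub_apply, Module.End.one_apply, sub_eq_zero] at this
    exact this
  · rw [LinearMap.mem_ker, LinearMap.sub_apply, Module.End.one_apply, sub_eq_zero]
    exact h g g.2

variable {I : Subgroup G} {φ : G} (hI : ∀ g ∈ I, φ⁻¹ * g * φ ∈ I)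
include hI

lemma GalPart.maps_inv (M : C) : ∀ x ∈ A.inv I M, A.act φ M x ∈ A.inv I M := by
  intro x hx
  rw [GalPart.mem_inv] at hx ⊢
  refine ⟨?_, fun g hg => ?_⟩
  · have := LinearMap.congr_fun (A.act_p φ M) x
    rw [Module.End.mul_apply, Module.End.mul_apply, hx.1] at this
    exact this.symm
  · have h1 := hx.2 _ (hI g hg)
    have h2 : A.act φ M (A.act (φ⁻¹ * g * φ) M x) = A.act g M (A.act φ M x) := by
      rw [← Module.End.mul_apply, ← A.act_mul, ← Module.End.mul_apply, ← A.act_mul]
      congr 2
      group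
    rw [h1] at h2
    exact h2.symm

lemma GalPart.euler_eq (M : C) : A.euler I φ M =
    ((A.act φ M).restrict (GalPart.maps_inv (A := A) hI M)).charpoly.reverse := by
  rw [GalPart.euler, detOn, dif_pos (GalPart.maps_inv (A := A) hI M)]

variable {M : C} {k : ℕ} {N : Fin k → C} {i : ∀ j, N j ⟶ M} {r : ∀ j, M ⟶ N j}
  (hunit : ∀ c : 𝟙_ C ⟶ 𝟙_ C, ∃ q : ℚ, c = q • 𝟙 _)
include hunit

/-- **Euler factors of numerical direct summands.** -/
theorem euler_main (h : NumSummands M N i r) (hP : ∀ j, A.Algebraic (N j)) :
    ∑ j, A.betti (N j) ≤ A.betti M ∧ ∏ j, A.euler I φ (N j) ∣ A.euler I φ M ∧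
    (∑ j, A.betti (N j) = A.betti M → A.Algebraic M ∧
      A.euler I φ M = ∏ j, A.euler I φ (N j)) := by
  have hK := R_charZero R
  have h0 := R.finite M
  have h0' := fun j => R.finite (N j)
  obtain ⟨P, hPp⟩ := A.exists_part
  have hPk : ∀ j, P.p (N j) ∈ KH R (N j) (N j) := fun j => by rw [hPp]; exact hP j
  have hdimP : ∀ X, P.dim X = A.betti X := fun X => by
    rw [NatPart.dim, NatPart.space, hPp, GalPart.betti]
  obtain ⟨hinj, e, he, heK, hpe, hep, hcomm, hdim, hrange⟩ := exists_idem P hunit h hPk
  rw [hPp] at hpe hep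
  have hpp := A.idem M
  -- the map of the invariants
  have hincl : ∀ y : ∀ j, A.inv I (N j), ∃ y' : ∀ j, P.space (N j),
      (∀ j, (y' j : R.H.obj (N j)) = y j) ∧ (incl P i y' : R.H.obj M) =
        ∑ j, (R.H.map (i j)).hom (y j : R.H.obj (N j)) := by
    intro y
    refine ⟨fun j => ⟨y j, ?_⟩, fun j => rfl, incl_apply P i _⟩
    rw [NatPart.space, hPp, mem_range_idem (A.idem _)]
    exact (GalPart.mem_inv.1 (y j).2).1
  have hact : ∀ (g : G) (y : ∀ j, R.H.obj (N j)),
      A.act g M (∑ j, (R.H.map (i j)).hom (y j)) =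
        ∑ j, (R.H.map (i j)).hom (A.act g (N j) (y j)) := by
    intro g y
    rw [map_sum]
    exact Finset.sum_congr rfl fun j _ => LinearMap.congr_fun (A.act_nat g (i j)) (y j)
  let J : (∀ j, A.inv I (N j)) →ₗ[K] A.inv I M :=
    LinearMap.codRestrict (A.inv I M)
      (∑ j, (R.H.map (i j)).hom ∘ₗ (A.inv I (N j)).subtype ∘ₗ LinearMap.proj j) (by
        intro x
        have hx : (∑ j, (R.H.map (i j)).hom ∘ₗ (A.inv I (N j)).subtype ∘ₗ LinearMap.proj j :
            (∀ j, A.inv I (N j)) →ₗ[K] R.H.obj M) x =
            ∑ j, (R.H.map (i j)).hom (x j : R.H.obj (N j)) := by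
          rw [LinearMap.sum_apply]; rfl
        rw [hx, GalPart.mem_inv]
        refine ⟨?_, fun g hg => ?_⟩
        · rw [map_sum]
          refine Finset.sum_congr rfl fun j _ => ?_
          have h1 := LinearMap.congr_fun (A.nat (i j)) (x j : R.H.obj (N j))
          change A.p M ((R.H.map (i j)).hom (x j : R.H.obj (N j))) =
            (R.H.map (i j)).hom (A.p (N j) (x j)) at h1
          rw [h1, (GalPart.mem_inv.1 (x j).2).1]
        · rw [hact]
          refine Finset.sum_congr rfl fun j _ => ?_
          rw [(GalPart.mem_inv.1 (x j).2).2 g hg])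
  have hJ : ∀ x, (J x : R.H.obj M) = ∑ j, (R.H.map (i j)).hom (x j : R.H.obj (N j)) := by
    intro x
    change (∑ j, (R.H.map (i j)).hom ∘ₗ (A.inv I (N j)).subtype ∘ₗ LinearMap.proj j :
      (∀ j, A.inv I (N j)) →ₗ[K] R.H.obj M) x = _
    rw [LinearMap.sum_apply]
    rfl
  have hJinj : Function.Injective J := by
    intro x y hxy
    obtain ⟨x', hx', hx''⟩ := hincl x
    obtain ⟨y', hy', hy''⟩ := hincl y
    have h1 : incl P i x' = incl P i y' := by
      apply Subtype.ext
      rw [hx'', hy'', ← hJ, ← hJ, hxy]
    have h2 := hinj h1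
    funext j
    apply Subtype.ext
    rw [← hx', ← hy', h2]
  -- the idempotent commutes with the action
  have hcact : ∀ g, A.act g M * e = e * A.act g M := by
    intro g
    apply hcomm
    rw [E, Finset.mul_sum, Finset.sum_mul]
    refine Finset.sum_congr rfl fun j _ => ?_
    have n1 : ∀ y, A.act g M ((R.H.map (i j)).hom y) = (R.H.map (i j)).hom (A.act g (N j) y) :=
      fun y => LinearMap.congr_fun (A.act_nat g (i j)) y
    have n2 : ∀ y, A.act g (N j) ((R.H.map (r j)).hom y) = (R.H.map (r j)).hom (A.act g M y) :=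
      fun y => LinearMap.congr_fun (A.act_nat g (r j)) y
    have n3 : ∀ y, A.act g (N j) (P.p (N j) y) = P.p (N j) (A.act g (N j) y) :=
      fun y => by rw [hPp]; exact LinearMap.congr_fun (A.act_p g (N j)) y
    apply LinearMap.ext
    intro x
    change A.act g M ((R.H.map (i j)).hom (P.p (N j) ((R.H.map (r j)).hom x))) =
      (R.H.map (i j)).hom (P.p (N j) ((R.H.map (r j)).hom (A.act g M x)))
    rw [n1, n3, n2]
  have heinv : ∀ x ∈ A.inv I M, e x ∈ A.inv I M := by
    intro x hx
    rw [GalPart.mem_inv] at hx ⊢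
    refine ⟨LinearMap.congr_fun hpe x, fun g hg => ?_⟩
    have h1 := LinearMap.congr_fun (hcact g) x
    rw [Module.End.mul_apply, Module.End.mul_apply, hx.2 g hg] at h1
    exact h1
  obtain ⟨Q, hQ1, hQ2⟩ := charpoly_split
    (F := (A.act φ M).restrict (GalPart.maps_inv (A := A) hI M))
    (G := LinearMap.pi fun j => ((A.act φ (N j)).restrict
      (GalPart.maps_inv (A := A) hI (N j))) ∘ₗ LinearMap.proj j)
    (I := J) hJinj (by
      intro x
      apply Subtype.ext
      change A.act φ M (J x : R.H.obj M) = _
      rw [hJ, hJ, hact]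
      rfl) (e := e.restrict heinv) (by
      ext x
      exact LinearMap.congr_fun he (x : R.H.obj M)) (by
      ext x
      exact (LinearMap.congr_fun (hcact φ) (x : R.H.obj M)).symm) (by
      ext x
      constructor
      · rintro ⟨y, hy⟩
        have hy' : e (y : R.H.obj M) = x := congrArg Subtype.val hy
        obtain ⟨z, hz⟩ := (hrange (x : R.H.obj M)).1 ⟨y, hy'⟩
        have hzinv : ∀ j, (z j : R.H.obj (N j)) ∈ A.inv I (N j) := by
          intro j
          rw [GalPart.mem_inv]
          have hzj : ∀ j, A.p (N j) (z j : R.H.obj (N j)) = z j := by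
            intro j
            rw [← mem_range_idem (A.idem _), ← hPp]
            exact (z j).2
          refine ⟨hzj j, fun g hg => ?_⟩
          let z' : ∀ j, P.space (N j) := fun j => ⟨A.act g (N j) (z j), by
            change _ ∈ LinearMap.range (P.p (N j))
            rw [hPp, mem_range_idem (A.idem _)]
            have := LinearMap.congr_fun (A.act_p g (N j)) (z j : R.H.obj (N j))
            rw [Module.End.mul_apply, Module.End.mul_apply, hzj j] at this
            exact this.symm⟩
          have h1 : incl P i z' = incl P i z := by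
            apply Subtype.ext
            rw [incl_apply, hz]
            have h2 := (GalPart.mem_inv.1 x.2).2 g hg
            rw [← hz, incl_apply, hact] at h2
            rw [← hz, incl_apply]
            exact h2
          have h3 := congrFun (hinj h1) j
          exact congrArg Subtype.val h3
        refine ⟨fun j => ⟨z j, hzinv j⟩, ?_⟩
        apply Subtype.ext
        rw [hJ, ← hz, incl_apply]
      · rintro ⟨y, rfl⟩
        obtain ⟨y', -, hy'⟩ := hincl y
        refine ⟨J y, ?_⟩
        apply Subtype.ext
        change e (J y : R.H.obj M) = J y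
        rw [← mem_range_idem he, hrange]
        exact ⟨y', by rw [hy', hJ]⟩)
  rw [charpoly_pi] at hQ1
  have hE : A.euler I φ M = (∏ j, A.euler I φ (N j)) * Q.reverse := by
    rw [GalPart.euler_eq hI, hQ1, reverse_mul_of_domain, reverse_prod']
    congr 1
    exact Finset.prod_congr rfl fun j _ => (GalPart.euler_eq hI (N j)).symm
  have hle : LinearMap.range e ≤ LinearMap.range (A.p M) := by
    rintro _ ⟨x, rfl⟩
    exact ⟨e x, LinearMap.congr_fun hpe x⟩
  have hsum : ∑ j, P.dim (N j) = ∑ j, A.betti (N j) := Finset.sum_congr rfl fun j _ => hdimP _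
  refine ⟨?_, ⟨Q.reverse, hE⟩, fun hd => ?_⟩
  · rw [← hsum, ← hdim]
    exact Submodule.finrank_mono hle
  · have h1 : LinearMap.range e = LinearMap.range (A.p M) :=
      Submodule.eq_of_le_of_finrank_le hle (by rw [hdim, hsum, hd]; rfl)
    have h2 : A.p M = e := by
      rw [← hep]
      ext x
      have h3 : A.p M x ∈ LinearMap.range e := by rw [h1]; exact ⟨x, rfl⟩
      rw [Module.End.mul_apply, (mem_range_idem he).1 h3]
    refine ⟨?_, ?_⟩
    · rw [GalPart.Algebraic, h2]
      exact heK
    · rw [hE, hQ2 (by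
        apply LinearMap.ext
        intro x
        apply Subtype.ext
        change e (x : R.H.obj M) = x
        rw [← h2]
        exact (GalPart.mem_inv.1 x.2).1), ← C_1, reverse_C, C_1, mul_one]

end

end Pool.Agent.Q154.NW
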