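import Pool.Agent.Q154.NW.Eng
import Pool.Agent.Q259.NW.Pure

/-! The eigenvalues of natural operators and numerical direct summands. -/

set_option autoImplicit false
set_option linter.unusedSectionVars false
set_option linter.unusedSimpArgs false
set_option linter.unusedVariables false
set_option backward.isDefEq.respectTransparency false
set_option backward.defeqAttrib.useBackward true

open CategoryTheory Limits MonoidalCategory Polynomial
open Pool.Agent.Y112.SR Pool.Agent.Q259.NCSign Pool.Agent.Q154.NS Pool.Agent.Q259.NW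

namespace Pool.Agent.Q154.NW

universe v u w w'

section

variable {C : Type u} [Category.{v} C] [Preadditive C] [Linear ℚ C] [MonoidalCategory C]
  [SymmetricCategory C] [RightRigidCategory C] {K : Type w} [Field K] {R : SuperRealisation C K}

/-- The part of the realisation of `M` cut out by the natural projector. -/
abbrev NatPart.space (P : NatPart R) (M : C) : Submodule K (R.H.obj M) := LinearMap.range (P.p M)

/-- The dimension of this part. -/
noncomputable def NatPart.dim (P : NatPart R) (M : C) : ℕ := Module.finrank K (P.space M)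

/-- The natural operator `F` preserves the natural direct summand. -/
def NatOp.Pres (F : NatOp R) (P : NatPart R) : Prop := ∀ M, F.op M * P.p M = P.p M * F.op M

lemma NatOp.Pres.mapsTo {F : NatOp R} {P : NatPart R} (h : F.Pres P) (M : C) :
    ∀ x ∈ P.space M, F.op M x ∈ P.space M := by
  rintro _ ⟨y, rfl⟩
  exact ⟨F.op M y, (LinearMap.congr_fun (h M) y).symm⟩

/-- The operator on the part. -/
noncomputable def NatOp.on {F : NatOp R} {P : NatPart R} (h : F.Pres P) (M : C) :
    Module.End K (P.space M) := (F.op M).restrict (h.mapsTo M)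

variable (P : NatPart R) {M : C} {k : ℕ} {N : Fin k → C} (i : ∀ j, N j ⟶ M)

/-- The map from the direct sum of the parts of the `N j` to the part of `M`. -/
noncomputable def incl : (∀ j, P.space (N j)) →ₗ[K] P.space M :=
  LinearMap.codRestrict (P.space M)
    (∑ j, (R.H.map (i j)).hom ∘ₗ (P.space (N j)).subtype ∘ₗ LinearMap.proj j) (by
      intro x
      rw [LinearMap.sum_apply]
      refine Submodule.sum_mem _ fun j _ => ?_
      obtain ⟨y, hy⟩ := (x j).2
      refine ⟨(R.H.map (i j)).hom y, ?_⟩
      have := LinearMap.congr_fun (P.nat (i j)) y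
      change P.p M ((R.H.map (i j)).hom y) = (R.H.map (i j)).hom (P.p (N j) y) at this
      rw [this, hy]
      rfl)

lemma incl_apply (x : ∀ j, P.space (N j)) :
    (incl P i x : R.H.obj M) = ∑ j, (R.H.map (i j)).hom (x j : R.H.obj (N j)) := by
  change (∑ j, (R.H.map (i j)).hom ∘ₗ (P.space (N j)).subtype ∘ₗ LinearMap.proj j :
    (∀ j, P.space (N j)) →ₗ[K] R.H.obj M) x = _
  rw [LinearMap.sum_apply]
  rfl

variable {i} {r : ∀ j, M ⟶ N j}
  (hunit : ∀ c : 𝟙_ C ⟶ 𝟙_ C, ∃ q : ℚ, c = q • 𝟙 _)
include hunit

/-- **The idempotent.** -/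
theorem exists_idem (h : NumSummands M N i r) (hP : ∀ j, P.p (N j) ∈ KH R (N j) (N j)) :
    Function.Injective (incl P i) ∧ ∃ e : Module.End K (R.H.obj M), e * e = e ∧
      e ∈ KH R M M ∧ P.p M * e = e ∧ e * P.p M = e ∧
      (∀ F : Module.End K (R.H.obj M), F * E P i r = E P i r * F → F * e = e * F) ∧
      Module.finrank K (LinearMap.range e) = ∑ j, P.dim (N j) ∧
      ∀ x, x ∈ LinearMap.range e ↔ ∃ y, (incl P i y : R.H.obj M) = x := by
  have hK := R_charZero R
  have h0 := R.finite M
  have h0' := fun j => R.finite (N j)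
  obtain ⟨Q, hQ1, hQ2⟩ := const_idem (T := E P i r) (trace_E_pow P hunit h hP)
  set e : Module.End K (R.H.obj M) := aeval (E P i r) (X * Q) with he
  have e1 : e = E P i r * aeval (E P i r) Q := by rw [he, map_mul, aeval_X]
  have e2 : e = aeval (E P i r) Q * E P i r := by rw [he, mul_comm X Q, map_mul, aeval_X]
  have hdim : Module.finrank K (LinearMap.range e) = ∑ j, P.dim (N j) := by
    have h1 := trace_idem hQ1
    rw [hQ2] at h1
    exact_mod_cast h1.symm
  have hfin : Module.finrank K (∀ j, P.space (N j)) = ∑ j, P.dim (N j) :=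
    Module.finrank_pi_fintype K
  set J : (∀ j, P.space (N j)) →ₗ[K] R.H.obj M := (P.space M).subtype ∘ₗ incl P i with hJ
  have hle : LinearMap.range e ≤ LinearMap.range J := by
    rintro _ ⟨x, rfl⟩
    rw [e1, Module.End.mul_apply]
    set y := (aeval (E P i r)) Q x
    refine ⟨fun j => ⟨P.p (N j) ((R.H.map (r j)).hom y), ⟨_, rfl⟩⟩, ?_⟩
    change (incl P i _ : R.H.obj M) = _
    rw [incl_apply, E, LinearMap.sum_apply]
    rfl
  have hJle : Module.finrank K (LinearMap.range J) ≤ ∑ j, P.dim (N j) := by
    rw [← hfin]; exact LinearMap.finrank_range_le J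
  have hge := Submodule.finrank_mono hle
  have hrange : LinearMap.range e = LinearMap.range J :=
    Submodule.eq_of_le_of_finrank_le hle (by rw [hdim]; exact hJle)
  have hJinj : Function.Injective J := by
    rw [← LinearMap.ker_eq_bot]
    have h1 := LinearMap.finrank_range_add_finrank_ker J
    rw [← hrange, hdim, hfin] at h1
    exact Submodule.finrank_eq_zero.1 (by omega)
  have hEspan : ∀ Q : K[X], aeval (E P i r) Q ∈ Submodule.span K (ops R M) := by
    intro Q
    rw [← mem_opsA]
    exact Algebra.adjoin_le (Set.singleton_subset_iff.2 ((mem_opsA R).2 (E_mem P hP)))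
      (aeval_mem_adjoin_singleton K (E P i r))
  refine ⟨fun x y hxy => hJinj (by
    change ((incl P i x : P.space M) : R.H.obj M) = ((incl P i y : P.space M) : R.H.obj M)
    rw [hxy]), e, hQ1, hEspan _, ?_, ?_, ?_, hdim, ?_⟩
  · rw [e1, ← mul_assoc, p_E]
  · rw [e2, mul_assoc, E_p]
  · intro F hF
    have h1 : Commute F (E P i r) := hF
    have : ∀ Q : K[X], Commute F (aeval (E P i r) Q) := by
      intro Q
      induction Q using Polynomial.induction_on' with
      | add P Q hP hQ => rw [map_add]; exact hP.add_right hQ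
      | monomial n a =>
        rw [aeval_monomial]
        exact (Algebra.commute_algebraMap_right a F).mul_right (h1.pow_right n)
    exact this _
  · intro x
    rw [hrange]
    rfl

/-- **The eigenvalues of a natural operator on numerical direct summands.** -/
theorem eigs_main (h : NumSummands M N i r) (hP : ∀ j, P.p (N j) ∈ KH R (N j) (N j)) :
    ∑ j, P.dim (N j) ≤ P.dim M ∧
    (∀ (F : NatOp R) (hF : F.Pres P), ∑ j, eigs (NatOp.on hF (N j)) ≤ eigs (NatOp.on hF M)) ∧
    (∑ j, P.dim (N j) = P.dim M → P.p M ∈ KH R M M) := by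
  have hK := R_charZero R
  have h0 := R.finite M
  have h0' := fun j => R.finite (N j)
  obtain ⟨hinj, e, he, heK, hpe, hep, hcomm, hdim, hrange⟩ := exists_idem P hunit h hP
  have hpp := P.idem M
  have hle : LinearMap.range e ≤ P.space M := by
    rintro _ ⟨x, rfl⟩
    exact ⟨e x, LinearMap.congr_fun hpe x⟩
  refine ⟨?_, ?_, ?_⟩
  · rw [← hdim]
    exact Submodule.finrank_mono hle
  · intro F hF
    rw [← eigs_pi k (fun j => P.space (N j)) (fun j => NatOp.on hF (N j))]
    have hFE : F.op M * E P i r = E P i r * F.op M := by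
      rw [E, Finset.mul_sum, Finset.sum_mul]
      refine Finset.sum_congr rfl fun j _ => ?_
      have n1 : ∀ y, F.op M ((R.H.map (i j)).hom y) = (R.H.map (i j)).hom (F.op (N j) y) :=
        fun y => LinearMap.congr_fun (F.nat (i j)) y
      have n2 : ∀ y, F.op (N j) ((R.H.map (r j)).hom y) = (R.H.map (r j)).hom (F.op M y) :=
        fun y => LinearMap.congr_fun (F.nat (r j)) y
      have n3 : ∀ y, F.op (N j) (P.p (N j) y) = P.p (N j) (F.op (N j) y) :=
        fun y => LinearMap.congr_fun (hF (N j)) y
      apply LinearMap.ext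
      intro x
      change F.op M ((R.H.map (i j)).hom (P.p (N j) ((R.H.map (r j)).hom x))) =
        (R.H.map (i j)).hom (P.p (N j) ((R.H.map (r j)).hom (F.op M x)))
      rw [n1, n3, n2]
    have hFe := hcomm _ hFE
    have heM : ∀ x ∈ P.space M, e x ∈ P.space M := fun x _ => hle ⟨x, rfl⟩
    refine eigs_le (I := incl P i) (e := e.restrict heM) hinj ?_ ?_ ?_ ?_
    · intro x
      apply Subtype.ext
      have h1 : ((NatOp.on hF M (incl P i x) : P.space M) : R.H.obj M) =
        F.op M (incl P i x : R.H.obj M) := rfl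
      rw [h1, incl_apply, incl_apply, map_sum]
      refine Finset.sum_congr rfl fun j _ => ?_
      exact LinearMap.congr_fun (F.nat (i j)) (x j : R.H.obj (N j))
    · ext x
      exact LinearMap.congr_fun he (x : R.H.obj M)
    · ext x
      exact (LinearMap.congr_fun hFe (x : R.H.obj M)).symm
    · ext x
      constructor
      · rintro ⟨y, hy⟩
        obtain ⟨z, hz⟩ := (hrange (x : R.H.obj M)).1 ⟨y, congrArg Subtype.val hy⟩
        exact ⟨z, Subtype.ext hz⟩
      · rintro ⟨z, hz⟩
        obtain ⟨y, hy⟩ := (hrange (x : R.H.obj M)).2 ⟨z, congrArg Subtype.val hz⟩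
        refine ⟨⟨e y, hle ⟨y, rfl⟩⟩, Subtype.ext ?_⟩
        change e (e y) = x
        have := LinearMap.congr_fun he y
        rw [Module.End.mul_apply] at this
        rw [this, hy]
  · intro hd
    have h1 : LinearMap.range e = P.space M :=
      Submodule.eq_of_le_of_finrank_le hle (by rw [hdim, hd]; rfl)
    have h2 : P.p M = e := by
      rw [← hep]
      ext x
      have h3 : P.p M x ∈ LinearMap.range e := by rw [h1]; exact ⟨x, rfl⟩
      rw [Module.End.mul_apply, (mem_range_idem he).1 h3]
    rw [h2]
    exact heK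

/-- **The converse for full numerical direct sums.** -/
theorem dim_eq (h : NumSummands M N i r) (hP : ∀ j, P.p (N j) ∈ KH R (N j) (N j))
    (hfull : NumTrivial (∑ j, r j ≫ i j - 𝟙 M)) (hM : P.p M ∈ KH R M M) :
    ∑ j, P.dim (N j) = P.dim M := by
  have hK := R_charZero R
  have h0 := R.finite M
  have hpp := P.idem M
  have h1 : P.p M ∘ₗ (R.H.map (∑ j, r j ≫ i j - 𝟙 M)).hom ∈ KN R M M :=
    KN_left hM (gen_KN hfull)
  have h2 : P.p M ∘ₗ (R.H.map (∑ j, r j ≫ i j - 𝟙 M)).hom = E P i r - P.p M := by
    rw [Functor.map_sub, Functor.map_sum, CategoryTheory.Functor.map_id, ModuleCat.hom_sub,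
      ModuleCat.hom_sum, LinearMap.comp_sub, E]
    congr 1
    change P.p M * ∑ j, (R.H.map (r j ≫ i j)).hom = _
    rw [Finset.mul_sum]
    refine Finset.sum_congr rfl fun j _ => ?_
    have h3 : P.p M * (R.H.map (r j ≫ i j)).hom =
        (P.p M ∘ₗ (R.H.map (i j)).hom) ∘ₗ (R.H.map (r j)).hom := by
      rw [Functor.map_comp]; rfl
    rw [h3, P.nat]
    rfl
  rw [h2] at h1
  have h4 := P.trace_eq (M := M) (a := E P i r - P.p M) (by rw [mul_sub, p_E, hpp])
  rw [str_KN hunit h1, mul_zero, map_sub, sub_eq_zero, trace_idem hpp] at h4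
  have h5 := trace_E_pow P hunit h hP 1 le_rfl
  rw [pow_one, h4] at h5
  exact_mod_cast h5.symm

end

end Pool.Agent.Q154.NW
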